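import Pool.Agent.Helper85.CP.Base

/-! No holes: localized to a block of the cardinals `ℵ_(α+j+1)`. -/

set_option autoImplicit false

open Cardinal Ordinal Set Filter Helper23.Pcf

universe u

namespace Helper85.CP

/-- the block of successor cardinals as an interval of regular cardinals -/
theorem block_eq {α j₀ s : Ordinal.{u}} {κ : Cardinal.{u}} (hs : s.card ≤ κ) (hκα : κ < ℵ_ α) :
    {l | ∃ j', j₀ ≤ j' ∧ j' < s ∧ l = ℵ_ (α + j' + 1)} =
      {l : Cardinal.{u} | l.IsRegular ∧ ℵ_ (α + j₀) < l ∧ l < ℵ_ (α + s + 1)} := by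
  ext l
  constructor
  · rintro ⟨j', h1, h2, rfl⟩
    refine ⟨Cardinal.isRegular_aleph_add_one _, ?_, ?_⟩
    · rw [Cardinal.aleph_lt_aleph, Order.lt_add_one_iff]
      gcongr
    · rw [Cardinal.aleph_lt_aleph, Order.lt_add_one_iff, ← Order.succ_eq_add_one,
        Order.succ_le_iff]
      gcongr
  · rintro ⟨h1, h2, h3⟩
    obtain ⟨z, rfl⟩ := Cardinal.mem_range_aleph_iff.2 h1.1
    rw [Cardinal.aleph_lt_aleph] at h2 h3
    have hαz : α ≤ z := le_self_add.trans h2.le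
    obtain ⟨w, rfl⟩ : ∃ w, z = α + w := ⟨z - α, (Ordinal.add_sub_cancel_of_le hαz).symm⟩
    have hjw : j₀ < w := lt_of_add_lt_add_left h2
    have hws : w ≤ s := by
      rw [Order.lt_add_one_iff] at h3
      exact le_of_add_le_add_left h3
    rcases Ordinal.zero_or_succ_or_isSuccLimit w with hw | ⟨v, hv⟩ | hw
    · rw [hw] at hjw
      exact absurd hjw not_lt_zero
    · subst hv
      refine ⟨v, Order.lt_succ_iff.1 hjw, Order.succ_le_iff.1 hws, ?_⟩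
      rw [Order.succ_eq_add_one, add_assoc]
    · exfalso
      refine absurd h1 (Cardinal.IsSingular.not_isRegular (Cardinal.isSingular_aleph_iff.2
        ⟨Ordinal.isSuccLimit_add _ hw, ?_⟩))
      rw [Ordinal.cof_add _ hw.ne_bot]
      calc w.cof ≤ w.card := Ordinal.cof_le_card w
        _ ≤ s.card := Ordinal.card_le_card hws
        _ ≤ κ := hs
        _ < ℵ_ α := hκα
        _ ≤ ℵ_ (α + w) := Cardinal.aleph_le_aleph.2 le_self_add

theorem local_nohole {α γ₀ : Ordinal.{u}} {κ : Cardinal.{u}} (h0 : ℵ₀ ≤ κ)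
    (hα : Order.IsSuccLimit α) (hγ : α.card = ℵ_ γ₀) (hlt : γ₀ < α)
    (hκ : (α - γ₀).card = κ)
    (hv : Cardinal.lift.{u+1} κ < #(pcfS (aSet α))) :
    ∀ j₀ < (Order.succ κ).ord, ∃ s < (Order.succ κ).ord, ∀ j, s ≤ j → j < (Order.succ κ).ord →
      ℵ_ (α + j + 1) ∈ pcfS {l | ∃ j', j₀ ≤ j' ∧ j' < s ∧ l = ℵ_ (α + j' + 1)} := by
  intro j₀ hj₀
  obtain ⟨-, hκγ, hadd⟩ := base hα hγ hlt hκ
  have h6 : γ₀ + (6 : ℕ) ≤ α := (hadd 6).le
  obtain ⟨-, E, hE, hE'⟩ := anatomy' h0 hα hγ hlt hκ hv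
  obtain ⟨ζ₀, hζ₀, hjζ⟩ := index h0 hlt h6 hκ j₀ hj₀
  obtain ⟨δ, hδE, hζδ, hδ⟩ := hE.unb ζ₀ hζ₀
  have hδκ : δ.card ≤ κ := Order.lt_succ_iff.1 (Cardinal.lt_ord.1 hδ)
  have hκα : κ < ℵ_ α := hκγ.trans_lt (Cardinal.aleph_lt_aleph.2 hlt)
  have hj₀δ : j₀ < δ := by
    have h1 : α + j₀ ≤ α + ζ₀ := by rw [hjζ]; gcongr
    exact (le_of_add_le_add_left h1).trans_lt hζδ
  refine ⟨δ, hδ, fun j hδj hj => ?_⟩
  obtain ⟨y, hy, hy'⟩ := hE' δ hδE hδ
  obtain ⟨c, hc, hc'⟩ := hy' ζ₀ hζδ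
  have hsub : (fun ε => ℵ_ (γ₀ + (6 : ℕ) + ε + 1)) '' (y ∩ Ioi ζ₀) ⊆
      {l | ∃ j', j₀ ≤ j' ∧ j' < δ ∧ l = ℵ_ (α + j' + 1)} := by
    rintro _ ⟨ε, ⟨hεy, hζε⟩, rfl⟩
    have hεδ : ε < δ := hy hεy
    have h1 : α + j₀ ≤ γ₀ + (6 : ℕ) + ε := by
      rw [hjζ]
      exact add_le_add_right (le_of_lt hζε) _
    have h2 : α ≤ γ₀ + (6 : ℕ) + ε := le_self_add.trans h1
    obtain ⟨j', hj'⟩ : ∃ j', γ₀ + (6 : ℕ) + ε = α + j' :=
      ⟨_, (Ordinal.add_sub_cancel_of_le h2).symm⟩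
    refine ⟨j', ?_, ?_, ?_⟩
    · rw [hj'] at h1
      exact le_of_add_le_add_left h1
    · have h3 : α + j' < α + δ := by
        rw [← hj']
        calc γ₀ + (6 : ℕ) + ε < γ₀ + (6 : ℕ) + δ := by gcongr
          _ ≤ α + δ := by gcongr
      exact lt_of_add_lt_add_left h3
    · show ℵ_ (γ₀ + (6 : ℕ) + ε + 1) = ℵ_ (α + j' + 1)
      rw [hj']
  have hcW := pcfS_mono hsub hc
  have hsm : Small.{u} {l | ∃ j', j₀ ≤ j' ∧ j' < δ ∧ l = ℵ_ (α + j' + 1)} := by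
    rw [block_eq hδκ hκα]
    exact small_subset (s := Iio (ℵ_ (α + δ + 1))) (fun l h => h.2.2)
  refine nohole (ρ := ℵ_ (α + j₀)) (σ := ℵ_ (α + δ + 1)) (block_eq hδκ hκα) ?_
    (Cardinal.aleph0_le_aleph _) hcW (Cardinal.isRegular_aleph_add_one _) ?_ ?_
  · rw [block_eq hδκ hκα]
    refine (mk_le_card' (x := α + δ + 1) (y := α + j₀) fun l h => ⟨h.2.1, h.2.2⟩).trans ?_
    rw [Cardinal.lift_le, add_assoc, Ordinal.add_sub_add_cancel]
    refine (Ordinal.card_le_card (Ordinal.sub_le_self _ _)).trans ?_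
    rw [Ordinal.card_add, Ordinal.card_one]
    refine (Cardinal.add_le_of_le (Cardinal.aleph0_le_aleph _) ?_ ?_)
    · exact hδκ.trans (hκα.le.trans (Cardinal.aleph_le_aleph.2 le_self_add))
    · exact Cardinal.one_le_aleph0.trans (Cardinal.aleph0_le_aleph _)
  · rw [Cardinal.aleph_lt_aleph, Order.lt_add_one_iff]
    exact add_le_add_right (hj₀δ.le.trans hδj) _
  · refine le_trans ?_ hc'.le
    obtain ⟨δ', hδ', hj'⟩ := index h0 hlt h6 hκ j hj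
    rw [Cardinal.aleph_le_aleph, hj', add_assoc _ δ']
    have hlim : Order.IsSuccLimit (Order.succ κ).ord :=
      Cardinal.isSuccLimit_ord (h0.trans (Order.le_succ κ))
    have h5 : δ' + 1 < (Order.succ κ).ord := by
      have := hlim.succ_lt hδ'
      rwa [Order.succ_eq_add_one] at this
    exact add_le_add_right h5.le _

end Helper85.CP
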