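import Pool.Agent.Helper85.CP.Base

/-! The cardinals `ℵ_(α+j+1)` belong to the pcf of the tail. -/

set_option autoImplicit false

open Cardinal Ordinal Set Filter Helper23.Pcf

universe u

namespace Helper85.CP

theorem tail_mem {α γ₀ : Ordinal.{u}} {κ : Cardinal.{u}} (h0 : ℵ₀ ≤ κ)
    (hα : Order.IsSuccLimit α) (hγ : α.card = ℵ_ γ₀) (hlt : γ₀ < α)
    (hκ : (α - γ₀).card = κ)
    (hv : Cardinal.lift.{u+1} κ < #(pcfS (aSet α))) (n : ℕ) :
    ∀ j < (Order.succ κ).ord, ℵ_ (α + j + 1) ∈ pcfS (ival (ℵ_ (γ₀ + n)) (ℵ_ α)) := by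
  intro j hj
  obtain ⟨-, -, hadd⟩ := base hα hγ hlt hκ
  obtain ⟨h1, -⟩ := anatomy' h0 hα hγ hlt hκ hv
  obtain ⟨δ, hδ, hj'⟩ := index h0 hlt (hadd 6).le hκ j hj
  have h2 : ℵ_ (α + j + 1) ∈ pcfS (aSet α) := by rw [hj']; exact h1 δ hδ
  rw [aSet_eq hγ, ival_split (hadd n), pcfS_union,
    pcfS_finite (finite_ival γ₀ n) (fun κ h => h.1)] at h2
  rcases h2 with h | h
  · exact h
  · exfalso
    have h3 := h.2.2
    rw [Cardinal.aleph_le_aleph] at h3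
    have h4 : α ≤ α + j + 1 := by rw [add_assoc]; exact le_self_add
    exact absurd (h3.trans_lt (hadd n)) (not_lt.2 h4)

end Helper85.CP
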