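import Pool.Agent.Helper85.Refl.Anatomy
import Pool.Agent.Helper85.Refl.Bd

/-! Points of every cofinality in a club, with a small cofinal block of the club below them. -/

set_option autoImplicit false

open Cardinal Ordinal Set Filter Helper23.Pcf

universe u

namespace Helper85.CP

theorem point_exists' {ρ ms : Cardinal.{u}} (hρ : ρ.IsRegular)
    (hms : ms.IsRegular) (hlt : ρ < ms) {E : Set Ordinal.{u}} (hE : ClubIn E ms.ord) :
    ∃ i ∈ E, i < ms.ord ∧ i.cof = ρ ∧ Order.IsSuccLimit i ∧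
      ∃ K : Set Ordinal.{u}, K ⊆ E ∧ K ⊆ Iio i ∧ UnbIn K i ∧
      #K ≤ Cardinal.lift.{u+1} ρ := by
  classical
  have hms0 : ℵ₀ < ms := hρ.1.trans_lt hlt
  have hcof : ℵ₀ < ms.ord.cof := by rw [hms.cof_ord]; exact hms0
  obtain ⟨i, hiρ, ⟨hi1, hi2⟩, hi⟩ := Helper85.Refl.stat_cof hρ hms hlt _
    (club_inter hcof (Helper85.Refl.club_acc hcof hE.unb) hE)
  have hiρ' : i.cof = ρ := hiρ
  have hlim : Order.IsSuccLimit i := Ordinal.one_lt_cof_iff.1 (by
    rw [hiρ']; exact one_lt_aleph0.trans_le hρ.1)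
  obtain ⟨C, hC1, hC2, hC3⟩ := exists_small_club hlim
  have hnx : ∀ x : Ordinal.{u}, ∃ y, x < i → y ∈ E ∧ x < y ∧ y < i := by
    intro x
    by_cases hx : x < i
    · obtain ⟨y, h⟩ := (show UnbIn E i from hi1) x hx
      exact ⟨y, fun _ => h⟩
    · exact ⟨0, fun h => absurd h hx⟩
  choose nx hnx using hnx
  refine ⟨i, hi2, hi, hiρ', hlim, nx '' C, ?_, ?_, ?_, ?_⟩
  · rintro _ ⟨x, hx, rfl⟩
    exact (hnx x (hC2 hx)).1
  · rintro _ ⟨x, hx, rfl⟩
    exact (hnx x (hC2 hx)).2.2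
  · intro x hx
    obtain ⟨y, h1, h2, h3⟩ := hC1.unb x hx
    have h4 := hnx y h3
    exact ⟨nx y, ⟨y, h1, rfl⟩, h2.trans h4.2.1, h4.2.2⟩
  · refine Cardinal.mk_image_le.trans ?_
    rw [hiρ'] at hC3
    exact hC3

end Helper85.CP
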