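import Pool.Agent.Helper55.CP.Ctx
import Pool.Agent.Helper54.CP.Tree
import Pool.Agent.Helper85.CP.Point

/-! The infinite set: bounded closures at a club of indices, for all cofinalities at once. -/

set_option autoImplicit false

open Cardinal Ordinal Set Filter Helper23.Pcf Helper55.CP

universe u

namespace Helper85.CP

variable {T : Data.{u}} {S : Scales T} {J : Type u}
  {G : J → List Ordinal.{u} → Ordinal.{u}} {B : Set Ordinal.{u}}
  {N : Ordinal.{u} → Set Ordinal.{u}}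

/-- continuity of the closures of the chain -/
theorem clo_lim (hN : Chain T S G B N) {i : Ordinal.{u}} (hi : Order.IsSuccLimit i)
    (X : Set Ordinal.{u}) {z : Ordinal.{u}} (hz : z ∈ Clo G (N i ∪ X)) :
    ∃ η < i, z ∈ Clo G (N η ∪ X) := by
  have hne : Nonempty (Iio i) := ⟨⟨0, hi.bot_lt⟩⟩
  have hsub : N i ∪ X ⊆ ⋃ η : Iio i, (N η.1 ∪ X) := by
    rintro w (hw | hw)
    · obtain ⟨η, h1, h2⟩ := hN.lim i hi w hw
      exact mem_iUnion.2 ⟨⟨η, h1⟩, Or.inl h2⟩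
    · exact mem_iUnion.2 ⟨⟨0, hi.bot_lt⟩, Or.inr hw⟩
  have hdir : Directed (· ⊆ ·) (fun η : Iio i => N η.1 ∪ X) := by
    intro η η'
    refine ⟨⟨max η.1 η'.1, mem_Iio.2 (max_lt (mem_Iio.1 η.2) (mem_Iio.1 η'.2))⟩, ?_, ?_⟩
    · exact union_subset_union_left _ (hN.mono _ _ (le_max_left _ _))
    · exact union_subset_union_left _ (hN.mono _ _ (le_max_right _ _))
  obtain ⟨η, hη⟩ := Clo_directed _ hdir (Clo_mono hsub hz)
  exact ⟨η.1, η.2, hη⟩

/-- finitely many ordinals below a smaller cardinal do not raise the suprema -/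
theorem sm (hN : Chain T S G B N) {i : Ordinal.{u}} (hi : i < (Order.succ T.μ).ord)
    (hcof : T.κ < i.cof) (q : T.Q) (p' : T.P) (hlt : T.c p' < T.c (T.lam q))
    (l : List Ordinal.{u}) (hl : ∀ z ∈ l, z < (T.c p').ord) :
    ∀ᶠ p in T.D q, ∀ z ∈ Clo G (N i ∪ ls l), z < (T.c p).ord →
      z < chi (N i) (T.c p).ord := by
  classical
  have hlim : Order.IsSuccLimit i :=
    Ordinal.one_lt_cof_iff.1 ((one_lt_aleph0.trans_le T.hκ).trans hcof)
  let X : Ordinal.{u} → Set T.P := fun η => {p | ∀ z ∈ Clo G (N η ∪ ls l), z < (T.c p).ord →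
      z < chi (N i) (T.c p).ord}
  have hX : ∀ η < i, ∀ᶠ p in T.D q, p ∈ X η := by
    intro η hη
    have hε : Order.succ η < i := hlim.succ_lt hη
    obtain ⟨g, hg1, hg2⟩ := hN.bd η (Order.succ η) (Order.lt_succ η) (hε.trans hi) q p' hlt
    refine (hg2 l hl).mono fun p hp z hz hzp => ?_
    exact ((hp z hz hzp).trans (lt_chi (hg1 p).1 (hg1 p).2)).trans_le
      (chi_mono (hN.mono _ _ hε.le))
  have hanti : ∀ η η', η ≤ η' → X η' ⊆ X η := fun η η' h p hp z hz =>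
    hp z (Clo_mono (union_subset_union_left _ (hN.mono _ _ h)) hz)
  have hb : ∀ p : T.X q, ∃ b < i, (∀ η < i, p.1 ∈ X η) ∨ p.1 ∉ X b := by
    intro p
    by_cases h : ∀ η < i, p.1 ∈ X η
    · exact ⟨0, hlim.bot_lt, Or.inl h⟩
    · push Not at h
      obtain ⟨η, h1, h2⟩ := h
      exact ⟨η, h1, Or.inr h2⟩
  choose b hb1 hb2 using hb
  have hsup : (⨆ p, b p) < i := Ordinal.iSup_lt_of_lt_cof ((T.hXκ q).trans_lt hcof) hb1
  filter_upwards [hX _ hsup, T.hX q] with p hp hpX z hz hzp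
  obtain ⟨η, hη, hz'⟩ := clo_lim hN hlim _ hz
  rcases hb2 ⟨p, hpX⟩ with h | h
  · exact h η hη z hz' hzp
  · exact absurd (hanti _ _ (Ordinal.le_iSup b ⟨p, hpX⟩) hp) h

/-- the supremum of the last model of the chain -/
noncomputable def xs (T : Data.{u}) (N : Ordinal.{u} → Set Ordinal.{u}) (ms : Cardinal.{u})
    (p : T.P) : Ordinal.{u} := chi (N ms.ord) (T.c p).ord

theorem ms_lt {ms : Cardinal.{u}} (hmsμ : ms ≤ T.μ) : ms.ord < (Order.succ T.μ).ord :=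
  Cardinal.ord_lt_ord.2 (Order.lt_succ_iff.2 hmsμ)

theorem xs_lt (hN : Chain T S G B N) {ms : Cardinal.{u}} (hmsμ : ms ≤ T.μ) (p : T.P) :
    xs T N ms p < (T.c p).ord :=
  chi_lt (T.reg p) ((hN.card _ (ms_lt hmsμ)).trans_lt (Cardinal.lift_lt.2 (T.hμc p)))

/-- the points of `E` above `x` -/
def par (T : Data.{u}) {a : Set T.P} (E : Finset a) (x : T.P) : Set T.P :=
  {y | ∃ w ∈ E, (w : T.P) = y ∧ T.c x < T.c y}

/-- the good indices of a finite set `E` with additional parameters `R` -/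
def GS (T : Data.{u}) {J : Type u} (G : J → List Ordinal.{u} → Ordinal.{u})
    (N : Ordinal.{u} → Set Ordinal.{u}) (ms : Cardinal.{u}) {a : Set T.P} (E : Finset a)
    (R : Set T.P) : Set Ordinal.{u} :=
  {i | i < ms.ord ∧ ∀ x ∈ E, ∀ z ∈ Clo G (N i ∪ xs T N ms '' (par T E x ∪ R)),
    z < (T.c x).ord → z < chi (N i) (T.c x).ord}

theorem GS_closed (hN : Chain T S G B N) {ms : Cardinal.{u}} {a : Set T.P} {E : Finset a}
    {R : Set T.P} : ClosedIn (GS T G N ms E R) ms.ord := by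
  intro δ hδ hδ0 hu
  refine ⟨hδ, fun x hx z hz hzx => ?_⟩
  obtain ⟨η, hη, hz'⟩ := clo_lim hN (hu.isSuccLimit hδ0) _ hz
  obtain ⟨η', h1, h2, h3⟩ := hu η hη
  exact (h1.2 x hx z (Clo_mono (union_subset_union_left _ (hN.mono _ _ h2.le)) hz')
    hzx).trans_le (chi_mono (hN.mono _ _ h3.le))

theorem GS_mono {ms : Cardinal.{u}} {a : Set T.P} {E : Finset a}
    {R R' : Set T.P} (h : R' ⊆ R) : GS T G N ms E R ⊆ GS T G N ms E R' :=
  fun _ hi => ⟨hi.1, fun x hx z hz => hi.2 x hx z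
    (Clo_mono (union_subset_union_right _ (image_mono (union_subset_union_right _ h))) hz)⟩

/-- the step of the rank argument -/
theorem step (hN : Chain T S G B N) {ms : Cardinal.{u}} (hms : ms.IsRegular)
    (hκms : Order.succ T.κ < ms) (hmsμ : ms ≤ T.μ) (H : Theta T)
    (hG : ∀ q p, ∃ j, ∀ δ, G j [δ] = gm (fun ξ => S.f q ξ p) δ)
    (hcap : ∀ q, ∀ᶠ p in T.D q, xs T N ms p = gm (fun ξ => S.f q ξ p) (xs T N ms (T.lam q)))
    {j₀ j : Ordinal.{u}} (hj₀ : j₀ < (Order.succ T.κ).ord) (hsj : H.s j₀ ≤ j)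
    (hj : j < (Order.succ T.κ).ord) (E : Finset H.a)
    (hE : UnbIn (GS T G N ms E {H.t j}) ms.ord) :
    ∃ j', j₀ ≤ j' ∧ j' < H.s j₀ ∧ ∃ y, y ∉ E ∧
      ∀ E' : Finset H.a, (∀ w ∈ E', w = y ∨ w ∈ E) →
        UnbIn (GS T G N ms E' {H.t j'}) ms.ord := by
  classical
  have hκms' : T.κ < ms := (Order.lt_succ _).trans hκms
  have hms0 : ℵ₀ < ms := T.hκ.trans_lt hκms'
  have hcofms : ℵ₀ < ms.ord.cof := by rw [hms.cof_ord]; exact hms0
  have hgm : ∀ q p, xs T N ms p = gm (fun ξ => S.f q ξ p) (xs T N ms (T.lam q)) →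
      ∀ X : Set Ordinal.{u}, xs T N ms (T.lam q) ∈ Clo G X → xs T N ms p ∈ Clo G X := by
    intro q p h X hX
    obtain ⟨k, hk⟩ := hG q p
    rw [h, ← hk]
    refine Clo_closed k _ ?_
    intro z hz
    rw [List.mem_singleton] at hz
    rw [hz]
    exact hX
  obtain ⟨q, hq1, hq2⟩ := H.hqt j₀ hj₀ j hsj hj
  obtain ⟨p, hp1, j', hj'1, hj'2, rfl⟩ := ((hcap q).and hq2).exists
  rw [hq1] at hp1
  obtain ⟨q2, hq3, hq4⟩ := H.hqa j hj
  have hj'j : j' < j := hj'2.trans_le hsj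
  have hj' : j' < (Order.succ T.κ).ord := hj'j.trans hj
  let l : List Ordinal.{u} :=
    xs T N ms (H.t j') :: E.toList.map (fun w : H.a => xs T N ms (w : T.P))
  have hl : ∀ z ∈ l, z < (T.c (H.t j')).ord := by
    intro z hz
    rcases List.mem_cons.1 hz with rfl | hz
    · exact xs_lt hN hmsμ _
    · obtain ⟨w, _, rfl⟩ := List.mem_map.1 hz
      exact (xs_lt hN hmsμ _).trans (Cardinal.ord_lt_ord.2 (H.hat _ w.2 _ hj'))
  have hlE : ∀ w ∈ E, xs T N ms w ∈ ls l := by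
    intro w hw
    exact List.mem_cons_of_mem _ (List.mem_map.2 ⟨w, Finset.mem_toList.2 hw, rfl⟩)
  have hlt : T.c (H.t j') < T.c (T.lam q2) := by rw [hq3]; exact H.ht _ _ hj'j hj
  -- good points for each index
  have hY : ∀ i, ∃ y : H.a, i < ms.ord → T.κ < i.cof → y ∉ E ∧
      xs T N ms y = gm (fun ξ => S.f q2 ξ y) (xs T N ms (T.lam q2)) ∧
      ∀ z ∈ Clo G (N i ∪ ls l), z < (T.c y).ord → z < chi (N i) (T.c y).ord := by
    intro i
    obtain ⟨y0, hy0⟩ := (show ∀ᶠ p in T.D q2, p ∈ H.a from hq4).exists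
    by_cases hi : i < ms.ord ∧ T.κ < i.cof
    · obtain ⟨y, ⟨h1, h2⟩, h3⟩ := (((sm hN (hi.1.trans (ms_lt hmsμ)) hi.2 q2 _ hlt l hl).and
        (hcap q2)).and hq4).exists
      refine ⟨⟨y, h3⟩, fun _ _ => ⟨?_, h2, h1⟩⟩
      intro hyE
      have h4 := h1 _ (subset_Clo (Or.inr (hlE _ hyE))) (xs_lt hN hmsμ y)
      exact absurd h4 (not_lt.2 (chi_mono (hN.mono _ _ hi.1.le)))
    · exact ⟨⟨y0, hy0⟩, fun h1 h2 => absurd ⟨h1, h2⟩ hi⟩
  choose Y hY using hY
  have hstat : ∀ β < ms.ord, ∃ i ∈ GS T G N ms E {H.t j}, T.κ < i.cof ∧ β < i := by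
    intro β hβ
    obtain ⟨i, h1, h2, h3⟩ := Helper85.Refl.stat_cof (Cardinal.isRegular_succ T.hκ) hms hκms _
      (club_inter hcofms ⟨hE, GS_closed hN⟩ (club_Ioi (Cardinal.isSuccLimit_ord hms.1) hβ))
    refine ⟨i, h2.1, ?_, h2.2⟩
    rw [show i.cof = Order.succ T.κ from h1]
    exact Order.lt_succ _
  have hpig : ∃ y : H.a, ∀ β < ms.ord, ∃ i ∈ GS T G N ms E {H.t j}, T.κ < i.cof ∧ β < i ∧
      Y i = y := by
    by_contra hcon
    push Not at hcon
    choose β hβ1 hβ2 using hcon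
    have hsup : (⨆ y, β y) < ms.ord := Ordinal.iSup_lt_of_lt_cof (by
      rw [hms.cof_ord]; exact H.ha.trans_lt hκms') hβ1
    obtain ⟨i, h1, h2, h3⟩ := hstat _ hsup
    exact hβ2 (Y i) i h1 h2 ((Ordinal.le_iSup β (Y i)).trans_lt h3) rfl
  obtain ⟨y, hy⟩ := hpig
  have hyE : y ∉ E := by
    obtain ⟨i, h1, h2, _, h4⟩ := hy 0 (Cardinal.isSuccLimit_ord hms.1).bot_lt
    rw [← h4]
    exact (hY i h1.1 h2).1
  refine ⟨j', hj'1, hj'2, y, hyE, fun E' hE' β hβ => ?_⟩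
  obtain ⟨i, hi, hicof, hβi, hYi⟩ := hy β hβ
  refine ⟨i, ⟨hi.1, ?_⟩, hβi, hi.1⟩
  have hYi' := hY i hi.1 hicof
  rw [hYi] at hYi'
  obtain ⟨-, h5, h6⟩ := hYi'
  rw [hq3] at h5
  intro x hx z hz hzx
  rcases hE' x hx with rfl | hxE
  · refine h6 z (Clo_mono ?_ hz) hzx
    refine union_subset_union_right _ ?_
    rintro _ ⟨w, ⟨v, hv, hvw, hlt'⟩ | hw, rfl⟩
    · subst hvw
      rcases hE' v hv with rfl | hvE
      · exact absurd hlt' (lt_irrefl _)
      · exact hlE v hvE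
    · rw [mem_singleton_iff] at hw
      rw [hw]
      exact List.mem_cons_self
  · refine hi.2 x hxE z (Clo_le ?_ hz) hzx
    have htj : xs T N ms (H.t j) ∈ Clo G (N i ∪ xs T N ms '' (par T E x ∪ {H.t j})) :=
      subset_Clo (Or.inr ⟨_, Or.inr rfl, rfl⟩)
    rintro _ (hw | ⟨w, ⟨v, hv, hvw, hlt'⟩ | hw, rfl⟩)
    · exact subset_Clo (Or.inl hw)
    · subst hvw
      rcases hE' v hv with rfl | hvE
      · exact hgm q2 _ (by rw [hq3]; exact h5) _ (by rw [hq3]; exact htj)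
      · exact subset_Clo (Or.inr ⟨_, Or.inl ⟨v, hvE, rfl, hlt'⟩, rfl⟩)
    · rw [mem_singleton_iff] at hw
      rw [hw]
      exact hgm q _ (by rw [hq1]; exact hp1) _ (by rw [hq1]; exact htj)

/-- The infinite set: for all indices in a club of `ms` the closure of `N i` with the suprema
`xs` of the points above `x` is bounded at `x` by `chi (N i)`. -/
theorem free_exists (hN : Chain T S G B N) {ms : Cardinal.{u}} (hms : ms.IsRegular)
    (hκms : Order.succ T.κ < ms) (hmsμ : ms ≤ T.μ) (H : Theta T)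
    (hG : ∀ q p, ∃ j, ∀ δ, G j [δ] = gm (fun ξ => S.f q ξ p) δ)
    (hcap : ∀ q, ∀ᶠ p in T.D q, xs T N ms p = gm (fun ξ => S.f q ξ p) (xs T N ms (T.lam q))) :
    ∃ A : Set T.P, A ⊆ H.a ∧ A.Infinite ∧ A.Countable ∧ ∃ C, ClubIn C ms.ord ∧
      (∀ i ∈ C, i < ms.ord → Order.IsSuccLimit i) ∧
      ∀ i ∈ C, i < ms.ord → ∀ x ∈ A,
        ∀ z ∈ Clo G (N i ∪ xs T N ms '' {y | y ∈ A ∧ T.c x < T.c y}),
        z < (T.c x).ord → z < chi (N i) (T.c x).ord := by
  classical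
  have hκms' : T.κ < ms := (Order.lt_succ _).trans hκms
  have hms0 : ℵ₀ < ms := T.hκ.trans_lt hκms'
  have hcofms : ℵ₀ < ms.ord.cof := by rw [hms.cof_ord]; exact hms0
  have hlim : Order.IsSuccLimit ms.ord := Cardinal.isSuccLimit_ord hms.1
  obtain ⟨g, hg1, hg2⟩ := tree_lemma (ι := H.a) T.hκ H.ha
    (fun E => UnbIn (GS T G N ms E ∅) ms.ord) (fun E j => UnbIn (GS T G N ms E {H.t j}) ms.ord)
    (fun j _ x hx => ⟨Order.succ x, ⟨hlim.succ_lt hx, fun x hx => absurd hx (Finset.notMem_empty x)⟩,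
      Order.lt_succ x, hlim.succ_lt hx⟩)
    (fun E j h => h.mono (GS_mono (empty_subset _)))
    H.s H.hs (by
      intro j₀ hj₀ j hsj hj E hE
      obtain ⟨j', h1, h2, y, h3, h4⟩ := step hN hms hκms hmsμ H hG hcap hj₀ hsj hj E hE
      exact ⟨j', h1, h2, y, h3, h4 _ fun w hw => Finset.mem_insert.1 hw⟩)
  let A : Set T.P := range (fun n => (g n : T.P))
  let C : ULift.{u} ℕ → Set Ordinal.{u} := fun n =>
    {i | UnbIn (GS T G N ms ((Finset.range n.down).image g) ∅) i}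
  have hC : ∀ n, ClubIn (C n) ms.ord := fun n => Helper85.Refl.club_acc hcofms (hg2 n.down)
  have hCall : ClubIn (⋂ n, C n) ms.ord := club_iInter hcofms (lt_of_le_of_lt (by simp) hcofms) C hC
  refine ⟨A, ?_, ?_, countable_range _, (⋂ n, C n) ∩ Ioi 0,
    club_inter hcofms hCall (club_Ioi hlim hlim.bot_lt), ?_, ?_⟩
  · rintro _ ⟨n, rfl⟩
    exact (g n).2
  · exact infinite_range_of_injective fun m n h => hg1 (Subtype.ext h)
  · rintro i ⟨hi, hi0⟩ _
    have h1 : UnbIn (GS T G N ms ((Finset.range 0).image g) ∅) i := mem_iInter.1 hi ⟨0⟩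
    exact h1.isSuccLimit hi0
  · rintro i ⟨hi, hi0⟩ him x ⟨n, rfl⟩ z hz hzx
    have hi' : ∀ m, UnbIn (GS T G N ms ((Finset.range m).image g) ∅) i :=
      fun m => mem_iInter.1 hi ⟨m⟩
    have hilim : Order.IsSuccLimit i := (hi' 0).isSuccLimit hi0
    obtain ⟨η, hη, hz1⟩ := clo_lim hN hilim _ hz
    -- finitely many parameters
    have hfin : ∃ m, n < m ∧
        z ∈ Clo G (N η ∪ xs T N ms '' (par T ((Finset.range m).image g) (g n) ∪ ∅)) := by
      have hsub : N η ∪ xs T N ms '' {y | y ∈ A ∧ T.c (g n) < T.c y} ⊆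
          ⋃ m : ℕ, (N η ∪ xs T N ms '' (par T ((Finset.range m).image g) (g n) ∪ ∅)) := by
        rintro w (hw | ⟨y, ⟨⟨k, rfl⟩, hk⟩, rfl⟩)
        · exact mem_iUnion.2 ⟨0, Or.inl hw⟩
        · refine mem_iUnion.2 ⟨k + 1, Or.inr ⟨_, Or.inl ⟨g k, ?_, rfl, hk⟩, rfl⟩⟩
          exact Finset.mem_image_of_mem g (Finset.mem_range.2 (Nat.lt_succ_self k))
      have hmono : ∀ m m', m ≤ m' →
          (N η ∪ xs T N ms '' (par T ((Finset.range m).image g) (g n) ∪ ∅)) ⊆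
          (N η ∪ xs T N ms '' (par T ((Finset.range m').image g) (g n) ∪ ∅)) := by
        intro m m' hmm'
        refine union_subset_union_right _ (image_mono (union_subset_union_left _ ?_))
        rintro y ⟨w, hw, hwy⟩
        exact ⟨w, Finset.image_mono g (Finset.range_mono hmm') hw, hwy⟩
      obtain ⟨m, hm⟩ := Clo_directed (I := ℕ)
        (fun m : ℕ => N η ∪ xs T N ms '' (par T ((Finset.range m).image g) (g n) ∪ ∅))
        (fun m m' => ⟨max m m', hmono _ _ (le_max_left _ _), hmono _ _ (le_max_right _ _)⟩)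
        (Clo_mono hsub hz1)
      exact ⟨max m (n + 1), lt_of_lt_of_le (Nat.lt_succ_self n) (le_max_right _ _),
        Clo_mono (hmono _ _ (le_max_left _ _)) hm⟩
    obtain ⟨m, hnm, hz2⟩ := hfin
    obtain ⟨η', h1, h2, h3⟩ := hi' m η hη
    have h4 := h1.2 (g n) (Finset.mem_image_of_mem g (Finset.mem_range.2 hnm)) z
      (Clo_mono (union_subset_union_left _ (hN.mono _ _ h2.le)) hz2) hzx
    exact h4.trans_le (chi_mono (hN.mono _ _ h3.le))

end Helper85.CP
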