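import Pool.Agent.Helper55.CP.Ctx
import Pool.Agent.Helper23.Pcf.Run
import Pool.Agent.Helper85.Refl.Anatomy

/-! The consequences of a large pcf used in the cofinality pattern theorem: common part. -/

set_option autoImplicit false

open Cardinal Ordinal Set Filter Helper23.Pcf

universe u

namespace Helper85.CP

/-- the cardinal arithmetic of the situation -/
theorem base {α γ₀ : Ordinal.{u}} {κ : Cardinal.{u}}
    (hα : Order.IsSuccLimit α) (hγ : α.card = ℵ_ γ₀) (hlt : γ₀ < α)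
    (hκ : (α - γ₀).card = κ) :
    #(aSet α) = Cardinal.lift.{u+1} κ ∧ κ ≤ ℵ_ γ₀ ∧ (∀ n : ℕ, γ₀ + n < α) := by
  refine ⟨?_, ?_, ?_⟩
  · rw [aSet_eq hγ, mk_ival hα hlt, hκ]
  · rw [← hγ, ← hκ]
    exact Ordinal.card_le_card (Ordinal.sub_le_self _ _)
  · intro n
    have h1 : (n : Ordinal.{u}) < α - γ₀ :=
      (Ordinal.natCast_lt_omega0 n).trans_le
        (Ordinal.omega0_le_of_isSuccLimit (sub_isSuccLimit hα hlt))
    exact Ordinal.lt_sub.1 h1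

/-- the indices `α + j` are of the form `γ₀ + 6 + δ` -/
theorem index {α γ₀ : Ordinal.{u}} {κ : Cardinal.{u}} (h0 : ℵ₀ ≤ κ)
    (hlt : γ₀ < α) (h6 : γ₀ + (6 : ℕ) ≤ α)
    (hκ : (α - γ₀).card = κ) :
    ∀ j < (Order.succ κ).ord, ∃ δ < (Order.succ κ).ord, α + j = γ₀ + (6 : ℕ) + δ := by
  intro j hj
  have hle : γ₀ + (6 : ℕ) ≤ α + j := h6.trans le_self_add
  refine ⟨α + j - (γ₀ + (6 : ℕ)), ?_, (Ordinal.add_sub_cancel_of_le hle).symm⟩
  rw [Ordinal.sub_lt_of_le hle]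
  have h1 : α - γ₀ < (Order.succ κ).ord := by
    rw [Cardinal.lt_ord, hκ]
    exact Order.lt_succ κ
  have h2 : α - γ₀ + j < (Order.succ κ).ord := by
    rw [Cardinal.lt_ord] at h1 hj ⊢
    rw [Ordinal.card_add]
    exact Cardinal.add_lt_of_lt (h0.trans (Order.le_succ κ)) h1 hj
  calc α + j = γ₀ + (α - γ₀ + j) := by
        rw [← add_assoc, Ordinal.add_sub_cancel_of_le hlt.le]
    _ < γ₀ + (Order.succ κ).ord := by gcongr
    _ ≤ γ₀ + (6 : ℕ) + (Order.succ κ).ord := by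
        rw [add_assoc]
        exact add_le_add_right le_add_self _

/-- the part of the anatomy that is needed -/
theorem anatomy' {α γ₀ : Ordinal.{u}} {κ : Cardinal.{u}} (h0 : ℵ₀ ≤ κ)
    (hα : Order.IsSuccLimit α) (hγ : α.card = ℵ_ γ₀) (hlt : γ₀ < α)
    (hκ : (α - γ₀).card = κ)
    (hv : Cardinal.lift.{u+1} κ < #(pcfS (aSet α))) :
    (∀ δ < (Order.succ κ).ord, ℵ_ (γ₀ + (6 : ℕ) + δ + 1) ∈ pcfS (aSet α)) ∧
    ∃ E, ClubIn E (Order.succ κ).ord ∧ ∀ δ ∈ E, δ < (Order.succ κ).ord →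
      ∃ y ⊆ Iio δ, ∀ ζ < δ, ∃ c ∈
        pcfS ((fun ε => ℵ_ (γ₀ + (6 : ℕ) + ε + 1)) '' (y ∩ Ioi ζ)),
          ℵ_ (γ₀ + (6 : ℕ) + (Order.succ κ).ord) < c := by
  obtain ⟨hA, hκγ, -⟩ := base hα hγ hlt hκ
  have hreg : (Order.succ κ).IsRegular := Cardinal.isRegular_succ h0
  obtain ⟨γ, N, hγ', -, h1, -, -, -, -, E, hE, hE'⟩ := Helper85.Refl.anatomy (lam := Order.succ κ)
    hα hreg (by rw [hA, Cardinal.lift_lt]; exact Order.lt_succ κ)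
    (by rw [pcf_aSet, Cardinal.lift_succ]; exact Order.succ_le_of_lt hv)
  obtain rfl : γ₀ = γ := Cardinal.aleph.injective (hγ.symm.trans hγ')
  refine ⟨fun δ hδ => by rw [← pcf_aSet]; exact h1 δ hδ, E, hE, fun δ hδ hδ' => ?_⟩
  obtain ⟨y, hy, -, hy'⟩ := hE' δ hδ hδ' (by
    rw [hA, Cardinal.lift_le]
    exact (Ordinal.cof_le_card δ).trans (Order.lt_succ_iff.1 (Cardinal.lt_ord.1 hδ')))
  refine ⟨y, hy, fun ζ hζ => ?_⟩
  obtain ⟨c, hc, hc'⟩ := hy' ζ hζ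
  refine ⟨c, ?_, hc'⟩
  have hs : Small.{u} (y ∩ Ioi ζ : Set Ordinal.{u}) :=
    small_subset (s := Iio δ) (fun x hx => hy hx.1)
  have hs' : Small.{u} ((fun ε => ℵ_ (γ₀ + (6 : ℕ) + ε + 1)) '' (y ∩ Ioi ζ)) := small_image _ _
  rw [pcf_eq_pcfS (a := (fun ε => ℵ_ (γ₀ + (6 : ℕ) + ε + 1)) '' (y ∩ Ioi ζ)) (by
    rintro _ ⟨ε, _, rfl⟩
    exact isRegular_aleph_add_one _)] at hc
  exact hc

end Helper85.CP
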