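import Pool.Agent.Helper85.CP.Free

/-! The suprema of the last model of the chain are captured by the scales. -/

set_option autoImplicit false

open Cardinal Ordinal Set Filter Helper23.Pcf Helper55.CP

universe u

namespace Helper85.CP

variable {T : Data.{u}} {S : Scales T} {J : Type u}
  {G : J → List Ordinal.{u} → Ordinal.{u}} {B : Set Ordinal.{u}}
  {N : Ordinal.{u} → Set Ordinal.{u}}

theorem chi_lt_c (hN : Chain T S G B N) {i : Ordinal.{u}} (hi : i < (Order.succ T.μ).ord)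
    (p : T.P) : chi (N i) (T.c p).ord < (T.c p).ord :=
  chi_lt (T.reg p) ((hN.card _ hi).trans_lt (Cardinal.lift_lt.2 (T.hμc p)))

theorem chi_strict (hN : Chain T S G B N) {η ε : Ordinal.{u}} (h : η < ε)
    (hε : ε < (Order.succ T.μ).ord) (p : T.P) :
    chi (N η) (T.c p).ord < chi (N ε) (T.c p).ord :=
  lt_chi (hN.chi η ε h hε p) (chi_lt_c hN (h.trans hε) p)

theorem chi_cont (hN : Chain T S G B N) {i o x : Ordinal.{u}} (hi : Order.IsSuccLimit i)
    (hx : x < chi (N i) o) : ∃ η < i, x < chi (N η) o := by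
  obtain ⟨z, hz, hzo, hxz⟩ := exists_of_lt_chi hx
  obtain ⟨η, h1, h2⟩ := hN.lim i hi z hz
  exact ⟨η, h1, hxz.trans_lt (lt_chi h2 hzo)⟩

theorem chi_cof (hN : Chain T S G B N) {i : Ordinal.{u}} (hi : Order.IsSuccLimit i)
    (hiμ : i < (Order.succ T.μ).ord) (p : T.P) : (chi (N i) (T.c p).ord).cof = i.cof := by
  have hmono : StrictMono (fun η : Iio i => chi (N η.1) (T.c p).ord) := fun η ε h =>
    chi_strict hN h (lt_trans ε.2 hiμ) p
  have h1 : ⨆ η : Iio i, chi (N η.1) (T.c p).ord = chi (N i) (T.c p).ord := by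
    apply le_antisymm
    · exact Ordinal.iSup_le fun η => (chi_strict hN η.2 hiμ p).le
    · apply le_of_forall_lt
      intro x hx
      obtain ⟨j, hj, hxj⟩ := chi_cont hN hi hx
      exact lt_of_lt_of_le hxj
        (Ordinal.le_iSup (fun η : Iio i => chi (N η.1) (T.c p).ord) ⟨j, hj⟩)
  rw [← h1]
  exact Ordinal.cof_iSup_Iio hmono hi.isSuccPrelimit

/-- the suprema at the point `p` form a club -/
theorem club_chi (hN : Chain T S G B N) {i : Ordinal.{u}} (hi : Order.IsSuccLimit i)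
    (hiμ : i < (Order.succ T.μ).ord) (p : T.P) :
    ClubIn {ζ | ∃ η < i, ζ = chi (N η) (T.c p).ord} (chi (N i) (T.c p).ord) := by
  refine ⟨?_, ?_⟩
  · intro x hx
    obtain ⟨η, hη, h1⟩ := chi_cont hN hi hx
    exact ⟨_, ⟨η, hη, rfl⟩, h1, chi_strict hN hη hiμ p⟩
  · intro δ hδ hδ0 hu
    obtain ⟨η0, h1, h2⟩ := chi_cont hN hi hδ
    have hne : {η | δ ≤ chi (N η) (T.c p).ord}.Nonempty := ⟨η0, h2.le⟩
    set η1 := sInf {η | δ ≤ chi (N η) (T.c p).ord} with hη1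
    have h3 : δ ≤ chi (N η1) (T.c p).ord := csInf_mem hne
    have h4 : ∀ η, δ ≤ chi (N η) (T.c p).ord → η1 ≤ η := fun η h => csInf_le' h
    have h5 : η1 < i := (h4 _ h2.le).trans_lt h1
    refine ⟨η1, h5, le_antisymm h3 ?_⟩
    by_contra hcon
    push Not at hcon
    rcases Ordinal.zero_or_succ_or_isSuccLimit η1 with h | ⟨η2, h⟩ | h
    · obtain ⟨_, ⟨η3, _, rfl⟩, _, h7⟩ := hu 0 hδ0
      rw [h] at hcon
      exact absurd ((hcon.trans_le (chi_mono (hN.mono _ _ (zero_le)))).trans h7) (lt_irrefl _)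
    · have h8 : chi (N η2) (T.c p).ord < δ := by
        by_contra h9
        push Not at h9
        have := h4 _ h9
        rw [← h] at this
        exact absurd (Order.lt_succ η2) (not_lt.2 this)
      obtain ⟨_, ⟨η3, h9, rfl⟩, h10, h11⟩ := hu _ h8
      have h12 : η2 < η3 := by
        by_contra h13
        push Not at h13
        exact absurd h10 (not_lt.2 (chi_mono (hN.mono _ _ h13)))
      have h14 : η1 ≤ η3 := by rw [← h]; exact Order.succ_le_of_lt h12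
      exact absurd ((hcon.trans_le (chi_mono (hN.mono _ _ h14))).trans h11) (lt_irrefl _)
    · obtain ⟨η3, h9, h10⟩ := chi_cont hN h hcon
      exact absurd (h4 _ h10.le) (not_le.2 h9)

/-- captured by the scales -/
theorem cap (hN : Chain T S G B N) {ms : Cardinal.{u}} (hms : ms.IsRegular)
    (hκms : T.κ < ms) (hmsμ : ms ≤ T.μ)
    (hGf : ∀ q p, ∃ j, ∀ ξ, G j [ξ] = S.f q ξ p) (q : T.Q) :
    ∀ᶠ p in T.D q, xs T N ms p = gm (fun ξ => S.f q ξ p) (xs T N ms (T.lam q)) := by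
  classical
  have hlim : Order.IsSuccLimit ms.ord := Cardinal.isSuccLimit_ord hms.1
  have hmsμ' := ms_lt hmsμ
  have hcof : (xs T N ms (T.lam q)).cof = ms := by
    unfold xs
    rw [chi_cof hN hlim hmsμ', hms.cof_ord]
  have hcof0 : ℵ₀ < (xs T N ms (T.lam q)).cof := by rw [hcof]; exact T.hκ.trans_lt hκms
  have hmem : ∀ p, xs T N ms p ∈ {s | ∃ C, ClubIn C (xs T N ms (T.lam q)) ∧
      ∀ ξ ∈ C, ξ < xs T N ms (T.lam q) → S.f q ξ p ≤ s} := by
    intro p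
    refine ⟨_, club_chi hN hlim hmsμ' (T.lam q), ?_⟩
    rintro _ ⟨η, hη, rfl⟩ _
    obtain ⟨j, hj⟩ := hGf q p
    have hη' : Order.succ η < ms.ord := hlim.succ_lt hη
    have h1 : G j [chi (N η) (T.c (T.lam q)).ord] ∈ N ms.ord := by
      refine hN.op _ _ hη' hmsμ' j _ ?_
      intro z hz
      rw [List.mem_singleton] at hz
      rw [hz]
      exact hN.chi _ _ (Order.lt_succ η) (hη'.trans hmsμ') _
    rw [hj] at h1
    exact (lt_chi h1 (S.lt _ _ _)).le
  have hge : ∀ p, gm (fun ξ => S.f q ξ p) (xs T N ms (T.lam q)) ≤ xs T N ms p :=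
    fun p => csInf_le' (hmem p)
  have hgm : ∀ p, ∃ C, ClubIn C (xs T N ms (T.lam q)) ∧
      ∀ ξ ∈ C, ξ < xs T N ms (T.lam q) →
        S.f q ξ p ≤ gm (fun ξ => S.f q ξ p) (xs T N ms (T.lam q)) := fun p =>
    csInf_mem (s := {s | ∃ C, ClubIn C (xs T N ms (T.lam q)) ∧
      ∀ ξ ∈ C, ξ < xs T N ms (T.lam q) → S.f q ξ p ≤ s}) ⟨_, hmem p⟩
  choose C hC hC' using hgm
  by_contra hcon
  have hcon' : ∀ᶠ p in T.D q, gm (fun ξ => S.f q ξ p) (xs T N ms (T.lam q)) < xs T N ms p := by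
    have h1 : ∀ᶠ p in T.D q, ¬ (xs T N ms p = gm (fun ξ => S.f q ξ p) (xs T N ms (T.lam q))) :=
      Ultrafilter.eventually_not.2 hcon
    exact h1.mono fun p hp => lt_of_le_of_ne (hge p) (Ne.symm hp)
  have hb : ∀ p : T.X q, ∃ b < ms.ord,
      gm (fun ξ => S.f q ξ p) (xs T N ms (T.lam q)) < xs T N ms p →
      gm (fun ξ => S.f q ξ p) (xs T N ms (T.lam q)) < chi (N b) (T.c p).ord := by
    intro p
    by_cases h : gm (fun ξ => S.f q ξ p) (xs T N ms (T.lam q)) < xs T N ms p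
    · obtain ⟨η, h1, h2⟩ := chi_cont hN hlim h
      exact ⟨η, h1, fun _ => h2⟩
    · exact ⟨0, hlim.bot_lt, fun h' => absurd h' h⟩
  choose b hb1 hb2 using hb
  have hsup : (⨆ p, b p) < ms.ord := Ordinal.iSup_lt_of_lt_cof (by
    rw [hms.cof_ord]; exact (T.hXκ q).trans_lt hκms) hb1
  have hCI : ClubIn (⋂ p : T.X q, C p) (xs T N ms (T.lam q)) :=
    club_iInter hcof0 (by rw [hcof]; exact (T.hXκ q).trans_lt hκms) _ (fun p => hC p)
  obtain ⟨ξ0, h1, h2, h3⟩ := hN.scale _ _ hsup hmsμ' q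
  obtain ⟨ξ1, h4, h5, h6⟩ := hCI.unb ξ0 (lt_chi h1 h2)
  have h7 := S.mono q ξ0 ξ1 h5 (h6.trans (xs_lt hN hmsμ _))
  unfold dlt at h7
  obtain ⟨p, ⟨⟨⟨g1, g2⟩, g3⟩, g4⟩⟩ := (((hcon'.and (T.hX q)).and h3).and h7).exists
  have g5 := hC' p ξ1 (mem_iInter.1 h4 ⟨p, g2⟩) h6
  have g6 := hb2 ⟨p, g2⟩ g1
  have g7 : chi (N (b ⟨p, g2⟩)) (T.c p).ord ≤ chi (N (⨆ p, b p)) (T.c p).ord :=
    chi_mono (hN.mono _ _ (Ordinal.le_iSup b ⟨p, g2⟩))
  exact absurd ((g6.trans_le g7).trans (g3.trans g4)) (not_lt.2 g5)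

end Helper85.CP
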