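import Pool.Agent.Helper85.CP.Cap
import Pool.Agent.Helper57.CP.ChainDone
import Pool.Agent.Helper63.CP.Scl
import Pool.Agent.Helper8.CP.Agree
import Pool.Agent.Helper8.CP.Ladder

/-! All patterns of cofinalities on one infinite set. -/

set_option autoImplicit false

open Cardinal Ordinal Set Filter Helper23.Pcf Helper55.CP

universe u

namespace Helper85.CP

/-- the index type of the operations -/
abbrev Idx (T : Data.{u}) (JF : Type u) : Type u :=
  JF ⊕ ((T.P × Option T.P) ⊕ ((T.Q × T.P) ⊕ ((T.Q × T.P) ⊕ PUnit.{u+1})))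

/-- all operations: the given ones, the bounds, the scales, their minima, the ladders -/
noncomputable def ops (T : Data.{u}) (S : Scales T) {JF : Type u}
    (F : JF → List Ordinal.{u} → Ordinal.{u}) (e : Ordinal.{u} → Ordinal.{u} → Ordinal.{u}) :
    Idx T JF → List Ordinal.{u} → Ordinal.{u}
  | .inl j, l => F j l
  | .inr (.inl (x, none)), l => chi (Clo F (ls l)) (T.c x).ord
  | .inr (.inl (x, some y)), l => chi (Clo F (ls l ∪ Iio (T.c y).ord)) (T.c x).ord
  | .inr (.inr (.inl (q, p))), l => S.f q (l.headD 0) p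
  | .inr (.inr (.inr (.inl (q, p)))), l => gm (fun ξ => S.f q ξ p) (l.headD 0)
  | .inr (.inr (.inr (.inr _))), l => e (l.headD 0) (l.tail.headD 0)

theorem mk_Idx_le (T : Data.{u}) {JF : Type u} (hJF : #JF ≤ T.μ) : #(Idx T JF) ≤ T.μ := by
  have h0 : ℵ₀ ≤ T.μ := T.hκ.trans T.hκμ
  have hadd : ∀ {a b : Cardinal.{u}}, a ≤ T.μ → b ≤ T.μ → a + b ≤ T.μ := fun ha hb =>
    Cardinal.add_le_of_le h0 ha hb
  have hmul : ∀ {a b : Cardinal.{u}}, a ≤ T.μ → b ≤ T.μ → a * b ≤ T.μ := fun ha hb =>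
    (mul_le_mul' ha hb).trans (Cardinal.mul_eq_self h0).le
  have h1 : (1 : Cardinal.{u}) ≤ T.μ := Cardinal.one_le_aleph0.trans h0
  unfold Idx
  have hu : #PUnit.{u+1} ≤ T.μ := by rw [Cardinal.mk_punit]; exact h1
  simp only [Cardinal.mk_sum, Cardinal.mk_prod, Cardinal.lift_id, Cardinal.mk_option]
  exact hadd hJF (hadd (hmul T.hP (hadd T.hP h1))
    (hadd (hmul T.hQ T.hP) (hadd (hmul T.hQ T.hP) hu)))

/-- a finite list of elements of `X` and of ordinals below smaller cardinals -/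
theorem split_list {T : Data.{u}} {A : Set T.P} {x : T.P} {X : Set Ordinal.{u}}
    (l : List Ordinal.{u}) (h : ∀ w ∈ l, w ∈ X ∨ ∃ y ∈ A, T.c y < T.c x ∧ w < (T.c y).ord) :
    ∃ l1 : List Ordinal.{u}, (∀ w ∈ l1, w ∈ X) ∧ (ls l ⊆ ls l1 ∨
      ∃ y ∈ A, T.c y < T.c x ∧ ls l ⊆ ls l1 ∪ Iio (T.c y).ord) := by
  induction l with
  | nil => exact ⟨[], fun w hw => absurd hw List.not_mem_nil, Or.inl (fun w hw => hw)⟩
  | cons a l ih =>
    obtain ⟨l1, h1, h2⟩ := ih fun w hw => h w (List.mem_cons_of_mem _ hw)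
    rcases h a List.mem_cons_self with ha | ⟨y, hy, hyx, hay⟩
    · refine ⟨a :: l1, ?_, ?_⟩
      · intro w hw
        rcases List.mem_cons.1 hw with rfl | hw
        · exact ha
        · exact h1 w hw
      · rcases h2 with h2 | ⟨y, hy, hyx, h2⟩
        · left
          intro w hw
          rcases List.mem_cons.1 (show w ∈ a :: l from hw) with rfl | hw
          · exact List.mem_cons_self
          · exact List.mem_cons_of_mem _ (h2 hw)
        · right
          refine ⟨y, hy, hyx, ?_⟩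
          intro w hw
          rcases List.mem_cons.1 (show w ∈ a :: l from hw) with rfl | hw
          · exact Or.inl List.mem_cons_self
          · rcases h2 hw with h3 | h3
            · exact Or.inl (List.mem_cons_of_mem _ h3)
            · exact Or.inr h3
    · refine ⟨l1, h1, Or.inr ?_⟩
      rcases h2 with h2 | ⟨y', hy', hyx', h2⟩
      · refine ⟨y, hy, hyx, ?_⟩
        intro w hw
        rcases List.mem_cons.1 (show w ∈ a :: l from hw) with rfl | hw
        · exact Or.inr hay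
        · exact Or.inl (h2 hw)
      · rcases le_total (T.c y) (T.c y') with hle | hle
        · refine ⟨y', hy', hyx', ?_⟩
          intro w hw
          rcases List.mem_cons.1 (show w ∈ a :: l from hw) with rfl | hw
          · exact Or.inr (hay.trans_le (Cardinal.ord_le_ord.2 hle))
          · exact h2 hw
        · refine ⟨y, hy, hyx, ?_⟩
          intro w hw
          rcases List.mem_cons.1 (show w ∈ a :: l from hw) with rfl | hw
          · exact Or.inr hay
          · rcases h2 hw with h3 | h3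
            · exact Or.inl h3
            · exact Or.inr (lt_of_lt_of_le h3 (Cardinal.ord_le_ord.2 hle))

theorem mk_ls_le {l : List Ordinal.{u}} {ν : Cardinal.{u}} (hν : ℵ₀ ≤ ν) :
    #(ls l) ≤ Cardinal.lift.{u+1} ν := by
  have h1 : (ls l).Finite := List.finite_toSet l
  exact ((Cardinal.lt_aleph0_iff_set_finite.2 h1).le).trans (Cardinal.aleph0_le_lift.2 hν)

/-- all patterns of cofinalities on one infinite set -/
theorem patterns (T : Data.{u}) (H : Theta T) {JF : Type u} (hJF : #JF ≤ T.μ)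
    (F : JF → List Ordinal.{u} → Ordinal.{u}) {ms : Cardinal.{u}} (hms : ms.IsRegular)
    (hκms : Order.succ T.κ < ms) (hmsμ : ms ≤ T.μ) :
    ∃ A : Set T.P, A ⊆ H.a ∧ A.Infinite ∧ ∃ pt : T.P → Cardinal.{u} → Ordinal.{u},
      (∀ x, ∀ ρ : Cardinal.{u}, ρ.IsRegular → ρ < ms →
        pt x ρ < (T.c x).ord ∧ (pt x ρ).cof = ρ) ∧
      ∀ f : T.P → Cardinal.{u}, (∀ x ∈ A, (f x).IsRegular ∧ f x < ms) →
        ∃ M : Set Ordinal.{u}, ClosedUnder F M ∧
          (∀ ν : Cardinal.{u}, ℵ₀ ≤ ν → #JF ≤ ν → (∀ x ∈ A, f x ≤ ν) →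
            #M ≤ Cardinal.lift.{u+1} ν) ∧
          ∀ x ∈ A, (∀ z ∈ M, z < (T.c x).ord → z < pt x (f x)) ∧
            ∀ y < pt x (f x), ∃ z ∈ M, y < z ∧ z < pt x (f x) := by
  classical
  have hκms' : T.κ < ms := (Order.lt_succ _).trans hκms
  have hms0 : ℵ₀ < ms := T.hκ.trans_lt hκms'
  have hμ0 : ℵ₀ ≤ T.μ := T.hκ.trans T.hκμ
  have hcofms : ℵ₀ < ms.ord.cof := by rw [hms.cof_ord]; exact hms0
  have hlim : Order.IsSuccLimit ms.ord := Cardinal.isSuccLimit_ord hms.1
  have hmsμ' := ms_lt hmsμ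
  obtain ⟨S⟩ := Helper55.CP.scales_exist T
  obtain ⟨e, he⟩ := Helper8.CP.ladder_exists.{u}
  let G := ops T S F e
  obtain ⟨N, hN⟩ := chain_exists T S (mk_Idx_le T hJF) G (Iio ms.ord) (by
    rw [Cardinal.mk_Iio_ordinal, Cardinal.card_ord]
    exact Cardinal.lift_le.2 hmsμ)
  have hcap := cap hN hms hκms' hmsμ (fun q p => ⟨.inr (.inr (.inl (q, p))), fun ξ => rfl⟩)
  obtain ⟨A, hAa, hAinf, hAc, C, hC, hClim, hfree⟩ := free_exists hN hms hκms hmsμ H
    (fun q p => ⟨.inr (.inr (.inr (.inl (q, p)))), fun ξ => rfl⟩) hcap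
  -- the clubs where the ladders agree with the suprema
  have hagree : ∀ x : T.P, ClubIn {i | e (xs T N ms x) i = chi (N i) (T.c x).ord} ms.ord := by
    intro x
    have hcof : (xs T N ms x).cof = ms := by
      unfold xs
      rw [chi_cof hN hlim hmsμ', hms.cof_ord]
    have hxlim : Order.IsSuccLimit (xs T N ms x) :=
      Ordinal.one_lt_cof_iff.1 (by rw [hcof]; exact one_lt_aleph0.trans hms0)
    obtain ⟨he1, he2, he3⟩ := he _ hxlim
    rw [hcof] at he3
    refine Helper8.CP.agree hcofms (e (xs T N ms x)) (fun i => chi (N i) (T.c x).ord)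
      (fun i j h _ => he1 i j h) (fun i j h hj => chi_strict hN h (hj.trans hmsμ') x)
      (fun i _ hi y hy => he2 i hi y hy) (fun i _ hi y hy => chi_cont hN hi hy) ?_ ?_
    · intro i hi
      refine chi_cont hN hlim ?_
      have := he1 i _ hi
      rwa [he3] at this
    · intro i hi
      refine he2 _ hlim _ ?_
      rw [he3]
      exact chi_strict hN hi hmsμ' x
  have hAcard : #A ≤ ℵ₀ := hAc.le_aleph0
  have hCI : ClubIn (⋂ x : A, {i | e (xs T N ms x) i = chi (N i) (T.c x).ord}) ms.ord :=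
    club_iInter hcofms (hAcard.trans_lt hcofms) _ (fun x => hagree x)
  have hpoint : ∀ ρ : Cardinal.{u}, ∃ (i : Ordinal.{u}) (K : Set Ordinal.{u}),
      ρ.IsRegular → ρ < ms → i ∈ C ∧ i < ms.ord ∧ i.cof = ρ ∧ Order.IsSuccLimit i ∧
      K ⊆ (⋂ x : A, {i | e (xs T N ms x) i = chi (N i) (T.c x).ord}) ∧ K ⊆ Iio i ∧ UnbIn K i ∧
      #K ≤ Cardinal.lift.{u+1} ρ := by
    intro ρ
    by_cases h : ρ.IsRegular ∧ ρ < ms
    · obtain ⟨i, h1, h2, h3, h4, K, h5, h6, h7, h8⟩ := point_exists' h.1 hms h.2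
        (club_inter hcofms hC hCI)
      exact ⟨i, K, fun _ _ => ⟨h1.1, h2, h3, h4, h5.trans inter_subset_right, h6, h7, h8⟩⟩
    · exact ⟨0, ∅, fun h1 h2 => absurd ⟨h1, h2⟩ h⟩
  choose iρ K hiK using hpoint
  refine ⟨A, hAa, hAinf, fun x ρ => chi (N (iρ ρ)) (T.c x).ord, ?_, ?_⟩
  · intro x ρ hρ hρms
    obtain ⟨h1, h2, h3, h4, -⟩ := hiK ρ hρ hρms
    exact ⟨chi_lt_c hN (h2.trans hmsμ') x, by rw [chi_cof hN h4 (h2.trans hmsμ'), h3]⟩
  · intro f hf
    let X0 : Set Ordinal.{u} := ⋃ x : A, (fun j => chi (N j) (T.c x).ord) '' K (f x)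
    refine ⟨Clo F X0, Clo_closed, ?_, ?_⟩
    · intro ν hν hJν hfν
      refine mk_Clo_le hν hJν ?_
      refine mk_iUnion_small' hν _ (hAcard.trans hν) fun x => ?_
      refine Cardinal.mk_image_le.trans ?_
      obtain ⟨-, -, -, -, -, -, -, h8⟩ := hiK (f x) (hf x x.2).1 (hf x x.2).2
      exact h8.trans (Cardinal.lift_le.2 (hfν x x.2))
    · intro x hx
      obtain ⟨hρ, hρms⟩ := hf x hx
      obtain ⟨hiC, hims, hicof, hilim, hKE, hKi, hKu, -⟩ := hiK (f x) hρ hρms
      set i := iρ (f x) with hi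
      refine ⟨?_, ?_⟩
      · intro z hz hzx
        set X : Set Ordinal.{u} :=
          Clo G (N i ∪ xs T N ms '' {y | y ∈ A ∧ T.c x < T.c y}) with hX
        obtain ⟨l, hl, hzl⟩ := Clo_finite hz
        have hl' : ∀ w ∈ l, w ∈ X ∨ ∃ y ∈ A, T.c y < T.c x ∧ w < (T.c y).ord := by
          intro w hw
          obtain ⟨y, hy⟩ := mem_iUnion.1 (hl w hw)
          obtain ⟨j, hj, rfl⟩ := hy
          obtain ⟨-, hyms, -, -, hyE, hyi, -, -⟩ := hiK (f y) (hf y y.2).1 (hf y y.2).2
          have hjms : j < ms.ord := lt_trans (hyi hj) hyms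
          rcases lt_trichotomy (T.c y) (T.c x) with h | h | h
          · exact Or.inr ⟨y, y.2, h, chi_lt_c hN (hjms.trans hmsμ') _⟩
          · left
            have hyx : (y : T.P) = x := T.inj h
            refine subset_Clo (Or.inl ?_)
            have hj' : j < i := by
              have := hyi hj
              rw [hyx] at this
              exact this
            exact hN.chi j i hj' (hims.trans hmsμ') _
          · left
            have h1 : e (xs T N ms y) j = chi (N j) (T.c y).ord := mem_iInter.1 (hyE hj) y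
            have h2 : G (.inr (.inr (.inr (.inr PUnit.unit)))) [xs T N ms y, j] =
              e (xs T N ms y) j := rfl
            show chi (N j) (T.c y).ord ∈ X
            rw [← h1, ← h2]
            refine Clo_closed _ _ ?_
            intro v hv
            rcases List.mem_cons.1 hv with rfl | hv
            · exact subset_Clo (Or.inr ⟨y, ⟨y.2, h⟩, rfl⟩)
            · rw [List.mem_singleton] at hv
              rw [hv]
              exact subset_Clo (Or.inl (hN.base i hjms))
        obtain ⟨l1, hl1, hl2⟩ := split_list l hl'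
        have hFG : ∀ W : Set Ordinal.{u}, ∀ h : Ordinal.{u}, h ∈ X → h < (T.c x).ord →
            z < h → z < chi (N i) (T.c x).ord := by
          intro _ h h1 h2 h3
          exact h3.trans (hfree i hiC hims x hx h h1 h2)
        rcases hl2 with hl2 | ⟨y, hy, hyx, hl2⟩
        · have h1 : G (.inr (.inl (x, none))) l1 = chi (Clo F (ls l1)) (T.c x).ord := rfl
          have h2 : chi (Clo F (ls l1)) (T.c x).ord < (T.c x).ord := chi_lt (T.reg x)
            ((mk_Clo_le hμ0 hJF (mk_ls_le hμ0)).trans_lt (Cardinal.lift_lt.2 (T.hμc x)))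
          refine hFG ∅ _ (h1 ▸ Clo_closed _ _ hl1) h2 (lt_chi (Clo_mono hl2 hzl) hzx)
        · have h1 : G (.inr (.inl (x, some y))) l1 =
            chi (Clo F (ls l1 ∪ Iio (T.c y).ord)) (T.c x).ord := rfl
          have hy0 : ℵ₀ ≤ T.c y := (T.reg y).1
          have h2 : chi (Clo F (ls l1 ∪ Iio (T.c y).ord)) (T.c x).ord < (T.c x).ord := by
            refine chi_lt (T.reg x) (lt_of_le_of_lt (mk_Clo_le hy0 (hJF.trans (T.hμc y).le) ?_)
              (Cardinal.lift_lt.2 hyx))
            refine (Cardinal.mk_union_le _ _).trans (Cardinal.add_le_of_le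
              (Cardinal.aleph0_le_lift.2 hy0) (mk_ls_le hy0) ?_)
            rw [Cardinal.mk_Iio_ordinal, Cardinal.card_ord]
          refine hFG ∅ _ (h1 ▸ Clo_closed _ _ hl1) h2 (lt_chi (Clo_mono hl2 hzl) hzx)
      · intro y hy
        obtain ⟨η, hη, h1⟩ := chi_cont hN hilim hy
        obtain ⟨j, hj, h2, h3⟩ := hKu η hη
        refine ⟨chi (N j) (T.c x).ord, subset_Clo (mem_iUnion.2 ⟨⟨x, hx⟩, j, hj, rfl⟩), ?_, ?_⟩
        · exact h1.trans (chi_strict hN h2 (h3.trans (hims.trans hmsμ')) x)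
        · exact chi_strict hN h3 (hims.trans hmsμ') x

end Helper85.CP
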